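import Pool.Agent.H842.CW.Vhc2

/-!
# The noncommutative Hodge conjecture for box products with powers of very general cyclic coverings

Let `𝒞` be an **arbitrary** admissible subcategory of `D_perf(Z)`, for a smooth proper variety `Z`,
which is fixed or varies in a family, and let `X_i`, `i = 1, …, r`, be very general members of
families of cyclic coverings of smooth projective varieties, branched along members of linear systems
(the simplest case: the hypersurfaces `w ^ d = F (x_0, …, x_n)` in a weighted projective space,
where `F` is homogeneous of degree `d m`). Let `T` be the covering transformation, and let `V_i` be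
the part of the rational cohomology (or topological K-theory) of `X_i` on which `T` has no
eigenvalue `1` or `- 1`; it is cut out by an idempotent polynomial in the autoequivalence `T`. We
consider the categories `D_perf(P) ⊠ 𝒞` for the products `P` of any numbers of copies of the `X_i`,
and their admissible subcategories, for instance `𝒜_1 ⊠ ⋯ ⊠ 𝒜_m ⊠ 𝒞`, where the `𝒜_j` are the
residual (Kuznetsov) categories of the `X_i`.

`ℚ ^ D` is `(K^top_0 ⊕ K^top_1)(𝒞) ⊗ ℚ`, with the Hodge operator `y u` (multiplication by `p - q` on
the part of type `(p, q)`). When the branch divisor acquires an ordinary double point, the monodromy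
is `± T` on the space `ℚ[T] δ` generated by the vanishing cycle and `1` on its orthogonal complement
(Pham): this is the hypothesis `HasReflection`, **one** such degeneration for each `i` is enough.

(1) Suppose that the monodromy and Mumford-Tate groups of `𝒞` have no characters, for instance that
`𝒞` is the category of a point, and that the `X_i` are coverings of projective spaces (of any
dimensions) of different degrees `q_i`, each of which is `4` or an odd prime number, and that none of
them is a cubic surface. Then the Hodge classes of `D_perf(P) ⊠ 𝒞` are, as far as the `V_i` are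
concerned (if the `q_i` are odd these are all classes), combinations of products of classes of graphs
of powers of `T` and of Hodge classes of `𝒞`; so the noncommutative Hodge conjecture for `𝒞` implies
the noncommutative Hodge conjecture for `D_perf(P) ⊠ 𝒞`. (By `MP_e12fcd_ag.CyclicCoversAllDegrees`
there are exceptional Hodge classes for all other degrees.)

(2) More generally this holds if `𝒞` has no characters and there is no numerical relation between
the eigenspaces `V_(i, b)` of `T`, that is, no `V_(i 1, b 1), …, V_(i r, b r)`, none opposite, with
`S (i 1) (t b 1) + ⋯ + S (i r) (t b r) = 0` for all `t` prime to `d`, where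
`S i b = ∑ (r - q) h^(r, q)` for `V_(i, b)`.

(3) It holds for arbitrary `𝒞` and arbitrary families of cyclic coverings for the Hodge classes which
involve `V_i` fewer times than the dimension of each eigenspace of `T` in `V_i`.

So the noncommutative Hodge conjecture is true for all admissible subcategories of `D_perf(P)`,
where `P` is a product of very general cyclic coverings, of different odd prime degrees, of
projective spaces.

In the Lean statement `A u k` and `A0 u` are the spaces spanned by the classes of objects of the
categories over the point `u` of the base `U` of the families (or of its universal covering). Only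
the closure properties in `IsCycles` are used: products with the classes of the graphs of the powers
of `T`, and the functors `D_perf(P) ⊠ 𝒞 ⟶ 𝒞` given by these objects, which are contractions on `K^top`.
-/

namespace Pool.Agent.Results.MP_43e44c_ag.BoxWithCyclicCovers

open Pool.Agent.TH125.Nod Pool.Agent.H842.CR Pool.Agent.H842.CW Finset

/-- The degrees `q i` are different from each other, each of them is four or an odd prime number, and
none of the coverings (of degree `q i` of a projective space of dimension `n i ≥ 1`, branched along a
hypersurface of degree `q i * m i`) is a cubic surface. -/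
def Good {ι : Type} (q m n : ι → ℕ) : Prop :=
  Function.Injective q ∧ ∀ i, (q i = 4 ∨ (q i).Prime ∧ q i ≠ 2) ∧ 0 < m i ∧ 0 < n i ∧
    ¬ (n i = 2 ∧ q i * m i = 3)

/-- `x` and `y` are variations of rational Hodge structure on `V = ⊕ V_i` and on `D` over `U`, `V`
is polarized and has an automorphism `T` of finite order without the eigenvalues `1` and `- 1`, for
each `i` some monodromy operator acts on `V_i` by the Picard-Lefschetz formula of cyclic coverings,
and `A`, `A0` are the classes of objects over the points of `U`. Then the following holds for all `u`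
in `U` outside the zeros of countably many nonzero analytic functions. Let `f` be a Hodge class on
`V × ⋯ × V × D` at `u`. Suppose that `D` has no characters, and that

(1) `V_i` is (as a Hodge structure with automorphism) the part without the eigenvalue `- 1` of the
primitive cohomology of a cyclic covering of degree `q i` of a projective space of dimension `n i`,
branched along a smooth hypersurface of degree `q i * m i`, where the `q i` are different from each
other, each of them is `4` or an odd prime, and none of the coverings is a cubic surface; or

(2) there are no eigenspaces `V_(i 1, b 1), …, V_(i r, b r)` of `T`, `r > 0`, none opposite, with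
`S (i 1) (t b 1) + ⋯ + S (i r) (t b r) = 0` for all units `t` modulo `d`, where
`S i b = ∑ (r - q) h^(r, q)` for the eigenspace of `exp (2 π √-1 b / d)` in `V_i`.

Or suppose that (3) `f` involves fewer variables from `V_i` than the dimension of each eigenspace of
`T` in `V_i`, for each `i` (and `D` is arbitrary).

Then `f` is a combination of products of the forms `Q_i (v, T ^ a w)` and of Hodge classes on `D`
(which are Hodge classes at all points); and if the Hodge classes on `D` at `u` are algebraic (the
noncommutative Hodge conjecture for `𝒞`), then `f` is algebraic. -/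
theorem result {E : Type} [NormedAddCommGroup E] [NormedSpace ℂ E] {U : Set E}
    (hU : IsConnected U) {ι B D : Type} [Fintype ι] [DecidableEq ι] [Fintype B] [DecidableEq B]
    [Fintype D] [DecidableEq D] (κ : B → ι) (s : ι → ℤ) (Q T : Matrix B B ℚ) (d : ℕ)
    (x : E → Matrix B B ℂ) (y : E → Matrix D D ℂ) (hV : IsVHS U x) (hD : IsVHS U y)
    (hP : IsPolarized U κ s Q x) (hT : IsAut U κ Q x T d)
    (hR : ∀ i, HasReflection U κ Q x y T i)
    (A : E → ∀ k : ℕ, Submodule ℚ ((Fin k → B) → D → ℚ)) (A0 : E → Submodule ℚ (D → ℚ))
    (hA : IsCycles U κ Q T A A0) :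
    ∃ h : ℕ → E → ℂ, (∀ n, AnalyticOnNhd ℂ (h n) U ∧ ∃ u ∈ U, h n u ≠ 0) ∧
      ∀ u ∈ U, (∀ n, h n u ≠ 0) → ∀ (k : ℕ) (f : (Fin k → B) → D → ℚ),
        IsHodge (x u) (y u) f →
        ((NoChar U y ∧ ∃ u ∈ U,
            ((∃ q m n : ι → ℕ, Good q m n ∧ IsCover κ T (x u) q m n) ∨
              ∃ S : ι → ZMod d → ℚ, HasHodgeSums κ T (x u) d S ∧ NoRelation κ T d S)) ∨
          ∀ (i : ι) (z : ℂ), eigenpart κ T i z ≠ ⊥ → ∀ J, f J ≠ 0 →
            (univ.filter fun j => κ (J j) = i).card < Module.finrank ℂ (eigenpart κ T i z)) →
        f ∈ Submodule.span ℚ {g | ∃ (m : ℕ) (e : Fin m × Fin 2 ≃ Fin k) (c : Fin m → ι)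
          (a : Fin m → ℕ) (h : D → ℚ), IsFlatHodgeD U y h ∧
            g = fun J l => formT κ Q T e c a J * h l} ∧
        ((∀ h, IsHodgeD (y u) h → h ∈ A0 u) → f ∈ A u k) := by
  obtain ⟨h, hh, hgen⟩ := exists_general hU.nonempty hV hD
  refine ⟨h, hh, fun u hu hne k f hf hcases => ?_⟩
  have hact := hgen u hu hne k f hf
  have key : (∀ l, (fun J => f J l) ∈ P0T κ Q T k) ∧ (∀ a ∈ mm U x y, act a f = 0) ∧
      IsLie κ Q (mm U x y) ∧ ∀ a ∈ mm U x y, a.1 * T = T * a.1 := by
    rcases hcases with ⟨hN, u1, hu1, hC⟩ | hcount
    · have hC' : (∃ u ∈ U, ∃ S : ι → ZMod d → ℚ, HasHodgeSums κ T (x u) d S ∧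
          NoRelation κ T d S) ∨ ∃ q : ι → ℕ, (∀ i, q i = 4 ∨ (q i).Prime ∧ q i ≠ 2) ∧
          Function.Injective q ∧
          ((∃ C : ι → ℚ, (∀ i, C i ≠ 0) ∧ ∃ u ∈ U, HasSawTypes κ T (x u) q C) ∨
            ∃ m n : ι → ℕ, (∀ i, 0 < m i ∧ 0 < n i ∧ ¬ (n i = 2 ∧ q i * m i = 3)) ∧
              ∃ u ∈ U, IsCover κ T (x u) q m n) := by
        rcases hC with ⟨q, m, n, hg, hcov⟩ | ⟨S, hS, hNR⟩
        · exact Or.inr ⟨q, fun i => (hg.2 i).1, hg.1, Or.inr ⟨m, n, fun i => (hg.2 i).2,
            u1, hu1, hcov⟩⟩
        · exact Or.inl ⟨u1, hu1, S, hS, hNR⟩
      obtain ⟨S, hS, hNR⟩ := norel_of_cases hT hC'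
      exact gen_norel hV hP hT hR hu hact hN hS hNR
    · exact gen_small hV hP hT hR hu hact hcount
  obtain ⟨h1, h2, h3, h4⟩ := key
  have hspan := gen_core h3 h4 h1 h2
  refine ⟨hspan, fun hZ => ?_⟩
  refine Submodule.span_le.2 ?_ hspan
  rintro g ⟨m, e, c, a, h, hh, rfl⟩
  exact hA.times u hu h (hZ h (hh u hu)) k m e c a

end Pool.Agent.Results.MP_43e44c_ag.BoxWithCyclicCovers
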