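import Mathlib
import Pool.Agent.H298.Core.MultiTimes
import Pool.Agent.H298.Core.DoubleTypeMain

/-!
# The noncommutative Hodge conjecture for the products of all admissible subcategories with abelian
varieties of CM type whose fields have core number one or a primitive core

**In short.** Let `E` be a CM field of degree `2 g`, `E₀` its maximal real subfield and `2 ^ v`, `1
≤ v ≤ g`, the degree of the Galois closure of `E` over the Galois closure of `E₀` (typically `v =
g`). The theorem is for the following CM types of `E` (`AllTypeCriteria`), among others: **(a) all
types of simple abelian varieties if `v > g / 4`, or if `g` is the product of two prime numbers and
`v > 1`, or if `E` has few divisors in the sense of `FewDivisors` (a condition on `g`, `v` and the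
discriminants), and if `v > g / 2` also all families of types with linearly independent sign
functions; (b) if `v > g / 6`, all types of simple abelian varieties which are not balanced over a
subfield of index `4`; (c) if the Galois group of `E₀` is doubly transitive and `g`
is odd, or `g - 1` is a prime number, or at least `g` is none of the numbers `10, 16, 26, 28, 36, …`
(`TwoGraphDegree`), or if it is triply transitive, for example the symmetric group, or the
alternating group if `g ≥ 5`, and `g ≥ 3`, all types of simple abelian varieties
which are not balanced over an imaginary quadratic subfield (which are not of Weil type).** In all
these cases the condition is necessary and sufficient. The general hypothesis (`CoreTypes`) is
explained below.

**Cores.** Let `X` be the set of the complex embeddings of the CM field `E`, `[E : ℚ] = 2 g`. The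
automorphisms of `ℂ` which map all elements of `X` to themselves or to their complex conjugates are
called sign changes. The first core of `φ : X` consists of the `ψ : X` which are moved by the same
sign changes as `φ`. If one uses all automorphisms which map the elements of the first core to
themselves or to their conjugates, one obtains the second core, inside of the first one, and so on
(`coreOf`). The cores of the same index have the same number `2 c` of elements, `c` divides `g`, and
the smallest such number `c` is the core number of `E`. It satisfies `c ≤ g / v`, and if a prime
number `q` divides the discriminant of `E`, but not the discriminant of the maximal real subfield,
then `q ^ c` divides the discriminant of `E`. `FewDivisors` says that all divisors of `g` which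
satisfy these conditions are one or prime.

**The CM types.** Let `E i` (`i` in a finite set) be CM fields, pairwise independent: for `i ≠ k`
and all complex embeddings `φ` of `E i` and `ψ` of `E k` some automorphism of `ℂ` is the identity on
`φ (E i)` and the complex conjugation on `ψ (E k)` (this is no condition if there is only one
field). Let `Φ i k` be finitely many CM types of each of the fields `E i`. The sign function of a
type is `1` on the type and `-1` on the other embeddings. Suppose that for each `E = E i` one of the
following conditions holds (`CoreTypes`).

* The core number of `E` is one, and the sign functions of the types `Φ i k` are linearly
  independent (`IndependentSigns`). This condition is necessary and sufficient for the joint
  nondegeneracy of the types; it is satisfied by **any three** types which are pairwise different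
  and not complex conjugate (that is, for any three nonisogenous abelian varieties with complex
  multiplication by `E`).
* There is a core with `c` pairs of embeddings, `c = [E : F]` for a subfield `F`, not totally real,
  such that the automorphisms of `ℂ` act doubly transitively on the extensions to `E` of an
  embedding of `F`. The sums of the sign functions over the extensions of the embeddings of `F` are
  linearly independent, and no nontrivial linear combination of the sign functions comes from `F`
  (`IndependentOver`; again necessary and sufficient).
* There is only one type `Φ`, and it is as follows (`CoreType`). The rational functions on the
  embeddings which change their sign under complex conjugation are an irreducible representation of
  the automorphisms of `ℂ` (`OddIrreducible`). Or the abelian varieties of type `Φ` are simple (`Φ`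
  is not induced from a proper subfield), there is a core with `c` pairs, where `c` is a prime
  number, or `c = 4`, or `c = [E : F]` as above, and (this is automatic if `c = 2` or if `c` is odd)
  there is no subfield `F`, not totally real, with `[E : F] = c` such that one half of the
  extensions of each embedding of `F` belong to `Φ` (`Balanced`). These conditions are necessary and
  sufficient. Or there is a core with a power `q` of a prime number `ℓ` of pairs, and for an orbit
  of `q` embeddings in it, of a group of automorphisms, the sum of the signs is prime to `ℓ`
  (`OddPrimePowerCore`, `TwoPowerCore`).

Let `A` be any product of copies of the abelian varieties of CM type `(E i, Φ i k)`, and let `C` be
**any** admissible subcategory of the derived category of any smooth proper complex variety `Y`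
which is unrelated to the fields `E i` (see below), for instance one which is not equivalent to the
derived category of a variety. Let `perf (A) ⊠ C` be the admissible subcategory of the derived
category of `A × Y` given by `C`. **Every rational Hodge class in `K_0^top (perf (A) ⊠ C)` is a sum
of products `f ⊗ x` of a combination `f` of products of divisor classes on `A` and a Hodge class `x`
in `K_0^top (C)`. So the noncommutative Hodge conjecture for `perf (A) ⊠ C` is equivalent to the
noncommutative Hodge conjecture for `C`; and if it holds for `C` then it holds for all admissible
subcategories of `perf (A) ⊠ C`** (`NoncommutativeTimes`). For instance it holds for `perf (A) ⊠ C`
for all unrelated components `C` of the derived categories of varieties of dimension at most three.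

The condition on `C` (`UnrelatedHodge`). Let `w ≠ 0` be a vector in `K_0^top (C) ⊗ ℂ` or `K_1^top
(C) ⊗ ℂ` such that for each automorphism `σ` of `ℂ` the conjugate `σ w` is of pure type: a sum of
classes of types `(p, q)` with `p - q = d σ`. The condition is that for all such `w` a function `n`
on the complex embeddings of `E i` with `n (conj φ) = - n φ` which is invariant under all
automorphisms `τ` of `ℂ` with `d (σ τ) = d σ` for all `σ` is zero. The vectors `w` span a sub-Hodge
structure with complex multiplication, and the condition is void for the vectors with `d = 0`. So it
is true if `K^top (C)` has no sub-Hodge structures with complex multiplication other than those of
type zero, or if the compositum of the fields of multiplication of these is linearly disjoint from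
the normal closures of the `E i`. It is also true if the ranks of `K_0^top (C)` and `K_1^top (C)`
are less than `2 * dim S` for all nonzero spaces `S` of functions `n` with `n (conj φ) = - n φ` that
are stable under the automorphisms of `ℂ` (`BettiCriterion` of MP_e12fcd_ag.AllCMFieldsTimes, with
the degrees zero and one): for a generic CM field `E` the theorem is about **all admissible
subcategories `C` with K-groups of rank less than `2 g`**, for instance the Kuznetsov components of
cubic fourfolds if `g > 12`.

Nothing is known about the noncommutative Hodge conjecture for `C` in general, and nothing is
assumed.

The Hodge structure of `K^top (C) ⊗ ℚ`, the sum of `K_0^top` (of weight zero) and `K_1^top` (of
weight one), is given by `V : Coh v`, a rational space with a basis of homogeneous elements and the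
Hodge operator `V.z`, which is the multiplication by `p - q`; by the Künneth formula the one of
`perf (A) ⊠ C` is `HAZ W v`, the forms on the homology `W` of `A` with values in `ℚ ^ v`
(`IsHodgeOnProduct` says that a class is a Hodge class). The spans of the classes of objects are
given by `ObjectClasses`; the two properties used are that the exterior product of a vector bundle
on `A` and an object of `C` is an object of `perf (A) ⊠ C`, and that its objects can be restricted
to a point of `A`.

Part two (`AllTypeCriteria`) contains the statement that these conditions are also necessary: the
degenerate CM types of the fields with a core with `c` pairs, primitive or with `c = 4`, are the
types which are induced from a proper subfield or balanced over a subfield of index `c`; the exact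
lists of the degenerate types in the cases (a), (b) and (c) above; the jointly nondegenerate
families of types of the fields with core number one, or with a doubly transitive core; the
criterion for three types; the facts about the cores (`CoreFacts`); and a criterion for the
independence of the fields: any two of them are separated by a prime number, which divides the
discriminant of one of them, but not the one of its maximal real subfield, and not the one of the
other field.

**What was known.** The abelian varieties of CM type of prime dimension are due to Tankeev and
Ribet; Dodson studied the CM fields by their sign changes. In the library the theorem is proved for
almost all CM types of each field (one type for each field). New here are explicit classes of CM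
fields of all degrees, for which **all** types are treated, with conditions which are necessary and
sufficient, and the families with several types for the same field.

**The proof.** One has to show that the sign functions of the types of `E` and their translates
satisfy no antisymmetric linear relation. The relations of several types are a space of functions on
several copies of the set of embeddings, stable under the automorphisms of `ℂ`. By the sign changes
one can cut down a relation; this gives, by induction on the size of the support and on the index of
the core, a relation which is supported in the copies of one core. If the core consists of one pair
this is a linear relation between the sign functions. In the doubly transitive case the extensions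
of an embedding of `F` are one half of the core, and the averages over the stabilizer of this half
and over the stabilizer of a point give the two conditions. For one type and a core of `2 p`
elements, `p` a prime number, a Sylow subgroup for `p` contains a `p`-cycle on one half of the core,
and the irreducibility of the cyclotomic polynomial shows that the signs come from a subfield or
that their sums over an orbit vanish. For a core of `8` elements: a relation which vanishes at one
element of the core has at most three positive values, and three signs with positive coefficients
cannot cancel unless two of the signs are always equal or always opposite; so the signs are induced,
or all relations in the core are proportional to each other, have constant absolute value, and are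
the difference of two blocks. For the cases (a), (b) and (c) one uses that a sign change is
determined by the first cores which it moves, so that `2 ^ v ≤ 2 ^ (g / c)`, and that for a triply transitive group either the odd
functions are irreducible or the signs are given by a character of the group, so that `E` contains
an imaginary quadratic field. If the group is doubly transitive, let `V` be a space of odd functions
which is stable under the automorphisms, neither zero nor everything. The values of its reproducing
kernel at two embeddings in different pairs are `β` or `-β`, and `β ≠ 0`; the signs form a regular
two-graph on the `g` pairs, with the eigenvalues `r` on `V` and `-s` on the orthogonal space,
`r s = g - 1`, `(r + s) dim V = g s`. If `g` is odd then `r` or `s` is even, and a descent modulo two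
shows that the nonzero functions in one of the two spaces have no zeros; by the maximum principle
this is also true if `r` or `s` is `1` or `-1`. So this space has dimension one, and the signs of its
functions give an imaginary quadratic subfield. A Hodge class on the product is, over
the complex numbers, a sum of products of monomials of eigenforms on `A` and vectors `w` of `K^top
(C) ⊗ ℂ`. All conjugates of `w` are of pure type, and the types are determined by the monomial and
the CM types. So the exponents of the monomial are invariant under the automorphisms which do not
change the types of `w`, and are balanced, as `C` is unrelated. So the class is a combination of
products of divisor classes and Hodge classes; the exterior products of vector bundles and objects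
of `C` are objects of the product, and conversely an object of the product can be restricted to a
point.
-/

set_option autoImplicit false

namespace Pool.Agent.Results.MP_43e44c_ag.SmallCoreFields

open NumberField Module Pool.Agent.H204R3.CM Pool.Agent.H977R3.CM Pool.Agent.H298.Core
  Pool.Agent.Q64.HC

/-- **The noncommutative Hodge conjecture for `perf (A) ⊠ C` is equivalent to the one for `C`, for the
products `A` of abelian varieties of CM type whose fields have core number one or a primitive core,
with several types for each field, and all unrelated admissible subcategories `C`.** -/
theorem result :
    (∀ (ι : Type) [Fintype ι] (E : ι → Type) [∀ i, Field (E i)] [∀ i, NumberField (E i)]
      [∀ i, IsCMField (E i)], PairwiseIndep E → ∀ (κ : ι → Type) [∀ i, Fintype (κ i)]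
      (Φ : ∀ i, κ i → Set (E i →+* ℂ)), (∀ i, CoreTypes (Φ i)) →
      NoncommutativeTimes (E := fun x : Σ i, κ i => E x.1) fun x => Φ x.1 x.2) ∧
    AllTypeCriteria :=
  ⟨fun _ _ _ _ _ _ hE _ _ _ h => noncommutativeTimes_types hE h, allTypeCriteria_hold⟩

end Pool.Agent.Results.MP_43e44c_ag.SmallCoreFields
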