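import Mathlib
import Pool.Agent.H855.HG.Vectors
import Pool.Agent.H855.HG.Cat

/-!
# The noncommutative Hodge conjecture for the exterior products of **every** admissible subcategory with
the admissible subcategories of CM type: finitely many exceptional vectors

Let `K i` (`i` in any set `I`) be CM fields, for instance **all** CM fields. A function `v` on the
complex embeddings of a field is odd if `v (conj φ) = - v φ`. A CM type `Φ` of `K i` is the same
thing as the odd function `x` with the value `1` on `Φ` and `- 1` on the conjugate embeddings. Let
`w i / 2` be a lower bound for the dimensions of the nonzero spaces of odd rational functions on the
embeddings of `K i` which are stable under the automorphisms of `ℂ`: `w i = 2` is always possible,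
and `w i = [K i : ℚ]` if the space of all odd functions is irreducible (`IsWeight`).

Below `Y` stands for an admissible subcategory `𝒞` of the category of perfect complexes on a smooth
proper complex variety, and `X` for another one, `𝒟`, for instance `D^perf(X)` for a smooth proper
variety `X`; the cohomology is the topological K-theory `K_0^top(𝒞) ⊗ ℚ ⊕ K_1^top(𝒞) ⊗ ℚ` with its
Hodge structure, and `X × Y` stands for the exterior product `𝒟 ⊠ 𝒞`, an admissible subcategory of
the category of perfect complexes on the product.

**Types.** Let `Y` be a smooth projective complex variety. The Hodge operator on its cohomology is
the multiplication by `p - q` on `H^(p, q)` (`HodgeSpace`). A vector `w` of `H(Y, ℂ)` has the types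
`d` if for each automorphism `σ` of the field `ℂ` the conjugate `σ w` (the conjugate of the
coordinates in a rational basis) is a sum of classes of types `(p, q)` with `p - q = d σ`
(`HasTypes`). These vectors generate the part of CM type of the cohomology (`cmPart`). The types of
a rational Hodge class are `d = 0`.

**The varieties `X`.** Let `x j` be integral odd functions on the complex embeddings of fields `L
j`, each one of the `K i`, `j` in a finite set. Let `X` be a smooth projective complex variety of CM
type, that is with a commutative Mumford-Tate group; this means that `H(X, ℂ)` is generated by
vectors with types (`IsOfCMType`). We suppose that for all vectors with types `d` a multiple of `d`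
is a sum `σ ↦ ∑ m (j, ψ) * x j (σ ψ)` over the embeddings `ψ` of the fields `L j` (`IsGeneratedBy`).
For instance `X` can be **any** abelian variety isogenous to a product of powers of the abelian
varieties of CM types `(L j, Φ j)`, or a variety whose cohomology is built from the cohomology of
such abelian varieties, like the Fermat hypersurfaces, or K3 surfaces with complex multiplication.
**Every** `X` of CM type is obtained in this way from suitable CM fields. The Hodge classes on `X`
can be exotic (not polynomials in divisor classes).

**The theorem.** For every `Y` there is a finite set `E` of pairs `(i, v)`, where `v` is an odd
function, not zero, on the complex embeddings of `K i`, which depends only on the Hodge structure of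
the topological K-theory of `𝒞` and the fields `K i`, with the following properties (`IsSmallFor`).

* The vectors `v` come from the types of the topological K-theory of `𝒞`: the functions `σ ↦ v (σ
  φ)` are linear combinations of the translates of the types `d` of one vector.
* `∑ w i + h ≤ c`, the sum over the elements `(i, v)` of `E`, where `h` is the dimension of the
  space of the Hodge classes, and `c` is the dimension of the part of CM type, of the topological
  K-theory of `𝒞`. So `E` has at most `(b - h) / 2` elements, where `b` is the dimension of the
  topological K-theory of `𝒞` (a sum of Betti numbers, or less), and `E` is **empty** if the part of
  CM type of the topological K-theory of `𝒞` consists of Hodge classes, or if `w i > b - h` for all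
  `i`.
* For all families `x j` such that no vector `v` of `E` is a combination of the `x j`, and for
  **all** `X` as above, the following is true for the categories `𝒟` with this Hodge structure
  (`NoncommutativeOnProducts`).
  1. The Hodge classes of `𝒟 ⊠ 𝒞` are **exactly** the sums of exterior products of Hodge classes of
     `𝒟` and `𝒞`.
  2. **The noncommutative Hodge conjecture is true for `𝒟 ⊠ 𝒞` if and only if it is true for `𝒟` and
     for `𝒞`**, if the Euler forms are not zero on `K_0(𝒟)` and `K_0(𝒞)` (`IsNontrivial`; this is
     true for the categories of perfect complexes on varieties, and for all categories with an
     exceptional object).
  3. Let the noncommutative Hodge conjecture be true for `𝒟`. Then the image of `K_0(𝒟 ⊠ 𝒞) ⊗ ℚ` in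
     the topological K-theory is **exactly** the space of the sums of exterior products of Hodge
     classes of `𝒟` and elements of the image of `K_0(𝒞) ⊗ ℚ`; and the noncommutative Hodge
     conjecture is true for `𝒟 ⊠ 𝒞` if and only if it is true for `𝒞`, if there are nonzero Hodge
     classes of `𝒟`.

A vector `v` on the embeddings of a field `K` is a combination of the `x j` (`IsComb`) if it is the
sum of the images of the `x j` under equivariant maps: `v φ = ∑ t φ (j, ψ) * x j ψ` with rational
numbers `t φ (j, ψ)` which are invariant under the automorphisms of `ℂ`, odd in `ψ`, and zero if the
fields `K` and `L j` are unrelated (there are no nonzero equivariant maps between their odd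
functions). So if the fields of the elements of `E` are unrelated to the `L j` the condition is
satisfied; and if the odd functions on the embeddings of `K i` are absolutely irreducible an element
`(i, v)` excludes at most one CM type `Φ` of `K i` and its conjugate, for the varieties `X`
generated by one CM type of `K i`. (Exceptions are necessary: `X` and `Y` can have common simple
factors of their cohomology, and then there are Hodge classes on `X × Y` which are not sums of
products.)

For instance `𝒟` can be `D^perf(X)` for an abelian variety `X` of CM type for which the Hodge
conjecture is true, or an admissible subcategory of it, or a component of `D^perf` of a cubic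
fourfold of CM type; and `𝒞` is arbitrary. If the noncommutative Hodge conjecture is false for `𝒞`
then it is false for all these products.

The results `AllCMTypesTimes` (library) and `SmallCoreFields`, `BoxWithCyclicCovers` of this run are
about the categories of perfect complexes on products of copies of the abelian varieties of almost
all CM types, respectively of nondegenerate CM types of special fields, and of cyclic coverings, and
categories unrelated to the fields. Here `𝒟` and `𝒞` are arbitrary admissible subcategories, `𝒟` of
CM type, and there is no condition besides the one that finitely many vectors are not combinations.

The framework (`CategoryTimes`): the topological K-theories of `𝒟`, `𝒞` and `𝒟 ⊠ 𝒞` (the theorem of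
Künneth: a tensor product, for `K_0^top ⊕ K_1^top` with rational coefficients), the images of `K_0`,
which consist of Hodge classes, the exterior products of objects, and the functors `RHom(D, -) : 𝒟 ⊠
𝒞 → 𝒞` and `RHom(C, -) : 𝒟 ⊠ 𝒞 → 𝒟` for the objects `D` of `𝒟` and `C` of `𝒞`, which operate by the
contraction with the Euler forms (`contract`, `contractR`). The Euler form is nondegenerate on the
Hodge classes of `𝒟` (`IsPerfect`; this is a theorem, since it is nondegenerate on the topological
K-theory, a polarizable Hodge structure, and a morphism of Hodge structures).

The proof. The spaces of the vectors with given types `d`, for different `d`, are linearly
independent, since they are common eigenspaces of the operators `σ⁻¹ z σ`, where `z` is the Hodge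
operator; so there are only finitely many `d` for `Y`, at most `c - h` nonzero ones
(`typeSpace_indep`, `card_types`). Take a basis `e k` of `H(X, ℂ)` of vectors with types `d k`, and
write a Hodge class on `X × Y` as `∑ e k ⊗ y k`. Since it is rational its conjugates are the same
class `∑ σ (e k) ⊗ σ (y k)`, so that the `y k` have the types `- d k` (`kunneth`). Some multiple of
`d k` is a sum of values `x j (σ ψ)`; since the functions `x j` are odd, `- d k` is the value of an
odd relation with rational coefficients. For each `d` up to translation which is such a value for
some family, there is one vector `v` (`exists_vector`) whose translates are combinations of the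
translates of `d`; and if another family has `d` as a value of a relation then `v` is a combination
of that family (`isComb_of`: one projects orthogonally to the space of the trivial relations). So
outside of the exceptional vectors `d k = 0` or `y k = 0` for all `k`. Then the class is killed by
the Hodge operators of both factors, and it is a sum of products of Hodge classes. The estimate: the
translates of `d` generate a space of dimension at least `w i / 2`, and they come in pairs `d`, `-
d` (`two_finrank_le`).
-/

set_option autoImplicit false

namespace Pool.Agent.Results.MP_43e44c_ag.TimesCMVarieties

open NumberField Pool.Agent.H855.CM Pool.Agent.H855.HG

/-- **For every admissible subcategory `𝒞`, with the topological K-theory `Y`: the Hodge classes of `𝒟 ⊠ 𝒞`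
are sums of exterior products, and the noncommutative Hodge conjecture is true for `𝒟 ⊠ 𝒞` if and only if
it is true for `𝒟` and `𝒞`, for all admissible subcategories `𝒟` of CM type, with topological K-theory
`X`, outside of finitely many exceptional vectors.** -/
theorem result {I : Type} (K : I → Type) [∀ i, Field (K i)] [∀ i, NumberField (K i)]
    [∀ i, IsCMField (K i)] (w : I → ℕ) (hw : ∀ i, IsWeight (K i) (w i)) (B : Type) [Fintype B]
    (Y : HodgeSpace B) :
    ∃ E : Finset (Σ i, ((K i →+* ℂ) → ℝ)), IsSmallFor w Y E ∧
      ForAllOfCMType K E (fun _ _ X => NoncommutativeOnProducts X Y) := by
  obtain ⟨E, hE, h⟩ := exists_vectors K w hw Y
  exact ⟨E, hE, h _ fun _ _ X hX => noncommutativeOnProducts hX⟩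

end Pool.Agent.Results.MP_43e44c_ag.TimesCMVarieties
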